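import Pool.Agent.J4H61.PM.D

/-!
In every permutation model of set theory with atoms the principles `M(C, WO)` (compact metrizable spaces are
well-orderable) and `M(TB, WO)` (totally bounded metric spaces are well-orderable) are equivalent.
-/

set_option autoImplicit false

universe u v

namespace Pool.Agent.Results.MP_c7a422_lc.PermutationModels

open Pool.Agent.J4H61.PM

/-- Let `F` be a normal filter of subgroups of a group `G`. In the permutation model given by `G` and `F`:
(1) for every totally bounded metric space there is a compact metric space which is well-orderable if and only if the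
given space is; (2) `M(C, WO)` and `M(TB, WO)` are equivalent. -/
theorem result : ∀ (G : Type v) [Group G] (F : NormalFilter G),
    (∀ (A : SymSet.{u, v} F) (d : MetricSpace A.X), A.MetricIn d → TotBounded A.X d →
      ∃ (B : SymSet.{u, v} F) (dB : MetricSpace B.X),
        B.MetricIn dB ∧ B.CompactIn dB ∧ (A.WellOrderable ↔ B.WellOrderable)) ∧
    (MCWO.{u, v} F ↔ MTBWO.{u, v} F) :=
  fun _ _ _ => ⟨main_pair, main_iff⟩

end Pool.Agent.Results.MP_c7a422_lc.PermutationModels
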